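import Pool.Agent.Helper12.GM.Lib
import Pool.Agent.Helper12.GM.LibF

/-! # KILL: killed Ancona inequality for the walls -/

open scoped ENNReal UpperHalfPlane MatrixGroups Topology
open UpperHalfPlane Real Filter

namespace Pool.Agent.Helper12.GM

theorem kill_path {Γ : Type} [Group Γ] {μ : PMF Γ} (X : Fuchs Γ) {κ κ₂ : ℝ} (hκ : 0 ≤ κ)
    (hκκ : κ ≤ κ₂) (noj : ∀ x s, μ s ≠ 0 → x ∈ Lft X κ → x * s ∉ Rgt X κ) {u v : Γ}
    (hu : u ∈ Lft X κ₂) (h : Gr μ (Lft X κ) u v ≠ 0) : v ∉ Rgt X κ := by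
  obtain ⟨n, hn⟩ := exists_pw μ h
  obtain ⟨p, hp0, hpn, hpΩ, hpμ⟩ := exists_path μ hn
  rcases Nat.eq_zero_or_pos n with h0 | h0
  · subst h0
    rw [← hpn, hp0]
    intro hr
    have hpos : 0 < (X.M u • (I : ℍ)).im := (X.M u • (I : ℍ)).im_pos
    have h1 : (X.M u • (I : ℍ)).re < -κ₂ * (X.M u • (I : ℍ)).im := hu
    have h2 : κ * (X.M u • (I : ℍ)).im < (X.M u • (I : ℍ)).re := hr
    nlinarith
  · have h1 := noj (p (n - 1)) ((p (n - 1))⁻¹ * p (n - 1 + 1)) (hpμ _ (by omega))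
      (hpΩ _ (by omega))
    rw [mul_inv_cancel_left, Nat.sub_add_cancel h0, hpn] at h1
    exact h1

theorem st_KILL (hKA : ST_KA) (hCO : ST_CONE) : ST_KILL := by
  classical
  intro Γ _ X Q μ K κ κ₂ Θ hD a ha
  have hκ := hD.κ0
  have hκκ := hD.κκ
  obtain ⟨Ca, hCa⟩ := hD.aln a ha
  obtain ⟨C₇, hC₇⟩ := hD.far
  obtain ⟨⟨l₁, hl₁⟩, hco2, hco3⟩ := hCO Q
  have h1R : (1 : Γ) ∉ Rgt X.toFuchs κ₂ := by
    intro h
    have h' : κ₂ * (X.M 1 • (I : ℍ)).im < (X.M 1 • (I : ℍ)).re := h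
    rw [X.act_one] at h'
    simp at h'
    linarith
  have hz : a⁻¹ ∈ Lft X.toFuchs κ₂ := by
    have := hD.pos₂ a ha 1 h1R
    rwa [mul_one] at this
  obtain ⟨c1, C1, hc1, hC1, hlow⟩ := hD.low _ hz
  obtain ⟨c2, C2, hc2, hC2, hdich⟩ := hD.dich _ hz
  -- Gromov product bound
  set C₀ : ℝ := (Q.L a + Ca) / 2 with hC₀
  have hgp : ∀ x ∈ Bnd X.toFuchs κ, ∀ y ∈ Bnd X.toFuchs κ, Q.gp (a⁻¹ * x) y a⁻¹ ≤ C₀ := by
    intro x hx y hy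
    have h := hCa x hx y hy
    unfold Geo.gp Geo.d
    have e1 : (a⁻¹)⁻¹ * (a⁻¹ * x) = x := by group
    have e2 : (a⁻¹ * x)⁻¹ * y = x⁻¹ * (a * y) := by group
    have e3 : (a⁻¹)⁻¹ * y = a * y := by group
    rw [e1, e2, e3]
    have h2 := Q.mul a y
    rw [hC₀]
    linarith
  obtain ⟨K', hK'⟩ := hKA Q μ K hD.wk (2 * C₀ + 2 * Q.C) (min c1 c2) (max C1 C2)
    (max l₁ (2 * (2 * C₀ + 2 * Q.C + C₇) + 2 * (2 * C₀ + Q.C) + 1)) (lt_min hc1 hc2)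
  refine ⟨K', ?_⟩
  intro x hx y hy
  have hC : 1 ≤ Q.C := Q.one_le_C
  refine hK' (Lft X.toFuchs κ) a⁻¹
    {u | u ∈ Lft X.toFuchs κ₂ ∧ Q.d a⁻¹ u / 2 ≤ Q.gp u (a⁻¹ * x) a⁻¹}
    {v | Q.d a⁻¹ v / 2 ≤ Q.gp v y a⁻¹} ?_ ?_ ?_ ?_ (a⁻¹ * x) ?_ y ?_
  · intro u hu v hv
    exact hco2 (a⁻¹ * x) y a⁻¹ u v C₀ (hgp x hx y hy) hu.2 hv
  · intro l hl w hw h1 h2 p hp1 hp2 u hu hpu
    obtain ⟨h3, h4⟩ := hl₁ l ((le_max_left _ _).trans hl) (a⁻¹ * x) a⁻¹ w p u hw.2 h1 hp1 hp2 hpu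
    refine ⟨?_, h3⟩
    by_contra hu2
    obtain ⟨y', hy', hd'⟩ := hC₇ u hu hu2
    have hl' := (le_max_right l₁ (2 * (2 * C₀ + 2 * Q.C + C₇) + 2 * (2 * C₀ + Q.C) + 1)).trans hl
    have hC₇0 : 0 ≤ C₇ := (Q.d_nonneg _ _).trans hd'
    have hC₀0 : 0 ≤ C₀ := (Q.gp_nonneg _ _ _).trans (hgp x hx y hy)
    have h5 := hco3 (a⁻¹ * x) y' a⁻¹ u C₀ (hgp x hx y' hy') h3 (by linarith)
    unfold Geo.gp at h5
    have h6 := Q.d_nonneg a⁻¹ y'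
    linarith
  · intro l hl w hw h1 h2 p hp1 hp2 u hu hpu
    exact (hl₁ l ((le_max_left _ _).trans hl) y a⁻¹ w p u hw h1 hp1 hp2 hpu).1
  · intro u hu v hv hne
    have hlu := hlow u hu.1
    have hvR := kill_path X.toFuchs hκ hκκ hD.noj hu.1 hne
    have hzu : Gr μ (Lft X.toFuchs κ) a⁻¹ u ≠ 0 := by
      intro h0
      have := hlu.2
      rw [h0, nonpos_iff_eq_zero, ENNReal.ofReal_eq_zero] at this
      have h7 : 0 < c1 * Real.exp (-C1 * Q.d a⁻¹ u) := by positivity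
      linarith
    have hzv := hdich v hvR (Gr_ne_zero_trans μ hzu hne)
    constructor
    · refine le_trans ?_ hlu.1
      refine ENNReal.ofReal_le_ofReal ?_
      have h8 := Q.d_nonneg a⁻¹ u
      refine mul_le_mul (min_le_left _ _) (Real.exp_le_exp.2 ?_) (Real.exp_pos _).le hc1.le
      have h9 := le_max_left C1 C2
      nlinarith
    · refine le_trans ?_ hzv
      refine ENNReal.ofReal_le_ofReal ?_
      have h8 := Q.d_nonneg a⁻¹ v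
      refine mul_le_mul (min_le_right _ _) (Real.exp_le_exp.2 ?_) (Real.exp_pos _).le hc2.le
      have h9 := le_max_right C1 C2
      nlinarith
  · have hpos : 0 < (X.M x • (I : ℍ)).im := (X.M x • (I : ℍ)).im_pos
    refine ⟨hD.pos₂ a ha x ?_, ?_⟩
    · intro hr
      have h1 : κ₂ * (X.M x • (I : ℍ)).im < (X.M x • (I : ℍ)).re := hr
      have h2 : |(X.M x • (I : ℍ)).re| ≤ κ * (X.M x • (I : ℍ)).im := hx
      have h3 := (abs_le.1 h2).2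
      nlinarith
    · unfold Geo.gp
      rw [Q.d_self]
      have := Q.d_nonneg a⁻¹ (a⁻¹ * x)
      linarith
  · show Q.d a⁻¹ y / 2 ≤ Q.gp y y a⁻¹
    unfold Geo.gp
    rw [Q.d_self]
    have := Q.d_nonneg a⁻¹ y
    linarith

end Pool.Agent.Helper12.GM
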