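import Pool.Agent.Helper12.GM.Lib

/-! # ZFIN: the Poincaré series of the Green function -/

open scoped ENNReal Topology
open Filter

namespace Pool.Agent.Helper12.GM

theorem zfin_mass {Γ : Type} [Group Γ] (μ : PMF Γ) (n : ℕ) (x : Γ) :
    ∑' y, pw μ Set.univ n x y ≤ 1 := by
  classical
  induction n generalizing x with
  | zero =>
    rw [tsum_eq_single x]
    · rw [pw_zero_self]
    · intro y hy
      rw [pw_zero_ne μ _ (Ne.symm hy)]
  | succ n ih =>
    simp_rw [pw_succ_mem μ n _ (Set.mem_univ x)]
    rw [ENNReal.tsum_comm]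
    calc ∑' s, ∑' y, μ s * pw μ Set.univ n (x * s) y
        ≤ ∑' s, μ s * 1 := by
          refine ENNReal.tsum_le_tsum fun s => ?_
          rw [ENNReal.tsum_mul_left]
          gcongr
          exact ih (x * s)
      _ = 1 := by simp only [mul_one]; exact μ.tsum_coe

theorem zfin_geom {a : ℝ} (ha : 0 < a) (C : ℝ) (hC : 0 ≤ C) :
    ∑' n : ℕ, ENNReal.ofReal (C * Real.exp (-a * n)) ≠ ∞ := by
  have h1 : Summable (fun n : ℕ => C * Real.exp (-a * n)) := by
    have e : (fun n : ℕ => C * Real.exp (-a * n)) = fun n : ℕ => C * Real.exp (-a) ^ n := by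
      funext n
      rw [← Real.exp_nat_mul]
      congr 2
      ring
    rw [e]
    refine Summable.mul_left _ ?_
    refine summable_geometric_of_lt_one (Real.exp_pos _).le ?_
    rw [Real.exp_lt_one_iff]
    linarith
  rw [← ENNReal.ofReal_tsum_of_nonneg (fun n => by positivity) h1]
  exact ENNReal.ofReal_ne_top

theorem st_ZFIN : ST_ZFIN := by
  classical
  intro Γ _ Q μ K hW s hs
  have hK : 0 < K := by have := hW.one_le; linarith
  have hC : 0 < Q.C := by have := Q.one_le_C; linarith
  set ε : ℝ := 1 / (2 * K) with hε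
  have hε0 : 0 < ε := by positivity
  have e1 : ∑' g, Gr μ Set.univ 1 g * ENNReal.ofReal (Real.exp (-s * Q.L g)) =
      ∑' n, ∑' g, pw μ Set.univ n 1 g * ENNReal.ofReal (Real.exp (-s * Q.L g)) := by
    rw [ENNReal.tsum_comm]
    refine tsum_congr fun g => ?_
    unfold Gr
    rw [ENNReal.tsum_mul_right]
  rw [e1]
  have e2 : ∀ n : ℕ, ∑' g, pw μ Set.univ n 1 g * ENNReal.ofReal (Real.exp (-s * Q.L g)) ≤
      ENNReal.ofReal (1 * Real.exp (-(s * ε) * n)) + ENNReal.ofReal (Q.C * Real.exp (-ε * n)) := by
    intro n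
    have h1 : ∀ g, pw μ Set.univ n 1 g * ENNReal.ofReal (Real.exp (-s * Q.L g)) ≤
        pw μ Set.univ n 1 g * ENNReal.ofReal (1 * Real.exp (-(s * ε) * n)) +
        (if Q.L g ≤ ε * n then ENNReal.ofReal (Real.exp (-(n : ℝ) / K)) else 0) := by
      intro g
      by_cases h : Q.L g ≤ ε * n
      · rw [if_pos h]
        refine le_trans ?_ le_add_self
        calc pw μ Set.univ n 1 g * ENNReal.ofReal (Real.exp (-s * Q.L g))
            ≤ ENNReal.ofReal (Real.exp (-(n : ℝ) / K)) * 1 := by
              gcongr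
              · exact hW.gap n 1 g
              · rw [← ENNReal.ofReal_one]
                refine ENNReal.ofReal_le_ofReal ?_
                rw [Real.exp_le_one_iff]
                have := Q.nonneg g
                nlinarith
          _ = _ := mul_one _
      · rw [if_neg h, add_zero]
        gcongr
        rw [one_mul]
        refine Real.exp_le_exp.2 ?_
        push Not at h
        nlinarith
    refine (ENNReal.tsum_le_tsum h1).trans ?_
    rw [ENNReal.tsum_add, ENNReal.tsum_mul_right]
    refine add_le_add ?_ ?_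
    · calc (∑' g, pw μ Set.univ n 1 g) * ENNReal.ofReal (1 * Real.exp (-(s * ε) * n))
          ≤ 1 * ENNReal.ofReal (1 * Real.exp (-(s * ε) * n)) := by
            gcongr
            exact zfin_mass μ n 1
        _ = _ := one_mul _
    · have hn : 0 ≤ ε * n := by positivity
      have h2 := Q.upper (ε * n) hn
      have h3 : ∑' g, (if Q.L g ≤ ε * n then ENNReal.ofReal (Real.exp (-(n : ℝ) / K)) else 0) =
          ({g | Q.L g ≤ ε * n}.ncard : ℝ≥0∞) * ENNReal.ofReal (Real.exp (-(n : ℝ) / K)) := by
        rw [tsum_eq_sum (s := (Q.fin (ε * n)).toFinset)]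
        · rw [Finset.sum_congr rfl (g := fun _ => ENNReal.ofReal (Real.exp (-(n : ℝ) / K)))]
          · rw [Finset.sum_const, nsmul_eq_mul, ← Set.ncard_eq_toFinset_card _ (Q.fin (ε * n))]
          · intro g hg
            rw [Set.Finite.mem_toFinset] at hg
            exact if_pos hg
        · intro g hg
          rw [Set.Finite.mem_toFinset] at hg
          exact if_neg hg
      rw [h3]
      have h4 : ({g | Q.L g ≤ ε * n}.ncard : ℝ≥0∞) =
          ENNReal.ofReal ({g | Q.L g ≤ ε * n}.ncard : ℝ) := by
        rw [ENNReal.ofReal_natCast]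
      rw [h4, ← ENNReal.ofReal_mul (by positivity)]
      refine ENNReal.ofReal_le_ofReal ?_
      calc ({g | Q.L g ≤ ε * n}.ncard : ℝ) * Real.exp (-(n : ℝ) / K)
          ≤ (Q.C * Real.exp (ε * n)) * Real.exp (-(n : ℝ) / K) := by gcongr
        _ = Q.C * Real.exp (-ε * n) := by
          rw [mul_assoc, ← Real.exp_add]
          congr 2
          rw [hε]
          field_simp
          ring
  refine ne_top_of_le_ne_top ?_ (ENNReal.tsum_le_tsum e2)
  rw [ENNReal.tsum_add]
  exact ENNReal.add_ne_top.2 ⟨zfin_geom (by positivity) 1 zero_le_one, zfin_geom hε0 _ hC.le⟩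

end Pool.Agent.Helper12.GM
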