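import Pool.Agent.Helper12.GM.Lib
import Pool.Agent.Helper12.GM.LibF

/-! # DICH: lower bounds at the boundary by invariance and finiteness -/

open scoped ENNReal UpperHalfPlane MatrixGroups Topology
open UpperHalfPlane Real Filter

namespace Pool.Agent.Helper12.GM

theorem dich_unif {α : Type} (T : Finset α) (P : α → ℝ → Prop)
    (hm : ∀ t c c', c' ≤ c → P t c → P t c') (h : ∀ t ∈ T, ∃ c, 0 < c ∧ P t c) :
    ∃ c, 0 < c ∧ ∀ t ∈ T, P t c := by
  classical
  induction T using Finset.induction_on with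
  | empty => exact ⟨1, one_pos, by simp⟩
  | insert a T _ ih =>
    obtain ⟨c1, h1, h1'⟩ := ih (fun t ht => h t (Finset.mem_insert_of_mem ht))
    obtain ⟨c2, h2, h2'⟩ := h a (Finset.mem_insert_self _ _)
    refine ⟨min c1 c2, lt_min h1 h2, ?_⟩
    intro t ht
    rcases Finset.mem_insert.1 ht with rfl | ht
    · exact hm _ _ _ (min_le_right _ _) h2'
    · exact hm _ _ _ (min_le_left _ _) (h1' t ht)

theorem st_DICH (hC : ST_CINV) (hF : ST_FORB) : ST_DICH := by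
  classical
  intro Γ _ X Q μ K κ κ₂ hL hW hκ hκκ hchn z hz
  obtain ⟨⟨T, hT, hT'⟩, -⟩ := hF X κ₂ (hκ.trans hκκ)
  obtain ⟨c₀, C₁, hc₀, hC₁, hlow⟩ := hchn z hz
  have hinv : ∀ (k : ℤ) (x y : Γ), Gr μ (Lft X.toFuchs κ) (X.c ^ k * x) (X.c ^ k * y) =
      Gr μ (Lft X.toFuchs κ) x y := by
    intro k x y
    have h := Gr_left μ (Lft X.toFuchs κ) (X.c ^ k) x y
    have e : {x | (X.c ^ k)⁻¹ * x ∈ Lft X.toFuchs κ} = Lft X.toFuchs κ := by
      ext w
      rw [← zpow_neg]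
      exact (hC X κ (-k) w).2.2.1
    rwa [e] at h
  have key : ∀ t ∈ T, ∃ c, 0 < c ∧ ∀ k : ℤ, Gr μ (Lft X.toFuchs κ) z (X.c ^ k * t) ≠ 0 →
      ENNReal.ofReal (c * Real.exp (-C₁ * Q.d z (X.c ^ k * t))) ≤
        Gr μ (Lft X.toFuchs κ) z (X.c ^ k * t) := by
    intro t ht
    by_cases hx : ∃ x ∈ Lft X.toFuchs κ₂, Gr μ (Lft X.toFuchs κ) x t ≠ 0
    · obtain ⟨x, hx, hxt⟩ := hx
      have hxt' : Gr μ (Lft X.toFuchs κ) x t ≠ ∞ := hW.Gr_ne_top _ _ _
      set e := (Gr μ (Lft X.toFuchs κ) x t).toReal with he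
      have he0 : 0 < e := ENNReal.toReal_pos hxt hxt'
      have hg0 : 0 < (Gr μ Set.univ 1 1).toReal :=
        ENNReal.toReal_pos (ne_of_gt (lt_of_lt_of_le one_pos (one_le_Gr μ _ _))) hW.G0_ne_top
      set g0 := (Gr μ Set.univ 1 1).toReal with hg0'
      refine ⟨c₀ * Real.exp (-C₁ * Q.d t x) * e / g0, by positivity, ?_⟩
      intro k _
      have h1 := (hlow (X.c ^ k * x) ((hC X κ₂ k x).2.2.1.2 hx)).2
      have h2 := Gr_chain μ (Lft X.toFuchs κ) z (X.c ^ k * x) (X.c ^ k * t)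
      rw [hinv] at h2
      have h3 : Q.d z (X.c ^ k * x) ≤ Q.d z (X.c ^ k * t) + Q.d t x := by
        have := Q.d_tri z (X.c ^ k * t) (X.c ^ k * x)
        rwa [Q.d_left] at this
      have h4 : ENNReal.ofReal (c₀ * Real.exp (-C₁ * Q.d z (X.c ^ k * x))) *
          Gr μ (Lft X.toFuchs κ) x t ≤
          Gr μ Set.univ 1 1 * Gr μ (Lft X.toFuchs κ) z (X.c ^ k * t) :=
        le_trans (by gcongr) h2
      have h5 : Gr μ (Lft X.toFuchs κ) z (X.c ^ k * t) ≠ ∞ := hW.Gr_ne_top _ _ _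
      rw [ENNReal.ofReal_le_iff_le_toReal h5]
      have h6 := ENNReal.toReal_mono (ENNReal.mul_ne_top hW.G0_ne_top h5) h4
      rw [ENNReal.toReal_mul, ENNReal.toReal_mul, ENNReal.toReal_ofReal (by positivity),
        ← he, ← hg0'] at h6
      have h7 : c₀ * Real.exp (-C₁ * Q.d t x) * e / g0 *
          Real.exp (-C₁ * Q.d z (X.c ^ k * t)) ≤
          c₀ * Real.exp (-C₁ * Q.d z (X.c ^ k * x)) * e / g0 := by
        have h8 : Real.exp (-C₁ * Q.d t x) * Real.exp (-C₁ * Q.d z (X.c ^ k * t)) ≤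
            Real.exp (-C₁ * Q.d z (X.c ^ k * x)) := by
          rw [← Real.exp_add]
          refine Real.exp_le_exp.2 ?_
          nlinarith
        calc c₀ * Real.exp (-C₁ * Q.d t x) * e / g0 * Real.exp (-C₁ * Q.d z (X.c ^ k * t))
            = c₀ * (Real.exp (-C₁ * Q.d t x) * Real.exp (-C₁ * Q.d z (X.c ^ k * t))) * e / g0 := by
              ring
          _ ≤ _ := by gcongr
      refine h7.trans ?_
      rw [div_le_iff₀ hg0]
      linarith
    · push Not at hx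
      refine ⟨1, one_pos, ?_⟩
      intro k hk
      exfalso
      apply hk
      have h1 := hinv k (X.c ^ (-k) * z) t
      rw [← mul_assoc, ← zpow_add, add_neg_cancel, zpow_zero, one_mul] at h1
      rw [h1]
      exact hx _ ((hC X κ₂ (-k) z).2.2.1.2 hz)
  obtain ⟨c, hc, hkey⟩ := dich_unif T _ (by
    intro t c c' hcc h k hk
    refine le_trans ?_ (h k hk)
    refine ENNReal.ofReal_le_ofReal ?_
    gcongr) key
  refine ⟨min c c₀, C₁, lt_min hc hc₀, hC₁, ?_⟩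
  intro v hv hGv
  by_cases hv2 : v ∈ Lft X.toFuchs κ₂
  · refine le_trans ?_ (hlow v hv2).2
    refine ENNReal.ofReal_le_ofReal ?_
    gcongr
    exact min_le_right _ _
  · have hvb : v ∈ Bnd X.toFuchs κ₂ := by
      have hpos : 0 < (X.M v • (I : ℍ)).im := (X.M v • (I : ℍ)).im_pos
      have h1 : ¬ (X.M v • (I : ℍ)).re < -κ₂ * (X.M v • (I : ℍ)).im := hv2
      have h2 : ¬ κ * (X.M v • (I : ℍ)).im < (X.M v • (I : ℍ)).re := hv
      push Not at h1 h2
      show |(X.M v • (I : ℍ)).re| ≤ κ₂ * (X.M v • (I : ℍ)).im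
      rw [abs_le]
      refine ⟨by linarith, h2.trans ?_⟩
      gcongr
    obtain ⟨t, ht, k, rfl⟩ := hT' v hvb
    refine le_trans ?_ (hkey t ht k hGv)
    refine ENNReal.ofReal_le_ofReal ?_
    gcongr
    exact min_le_left _ _

end Pool.Agent.Helper12.GM
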